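import Mathlib
import Pool.Agent.Lib.helper11.OrthAdd

namespace Pool.Agent.Results.MP_78978c_an.Gap

open Pool.Agent.Lib.helper11.OrthAdd

variable {E F : Type} [AddCommGroup E] [Lattice E] [AddCommGroup F] [Lattice F]

/-- orthogonally additive map -/
def OA (T : E → F) : Prop := ∀ x y, |x| ⊓ |y| = 0 → T (x + y) = T x + T y

/-- `R` is the least upper bound of `S` and `T` among the orthogonally additive maps, for the
pointwise order -/
def IsJoin (S T R : E → F) : Prop :=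
  OA R ∧ S ≤ R ∧ T ≤ R ∧ ∀ P, OA P → S ≤ P → T ≤ P → R ≤ P

/-- the set of `S u + T v` over disjoint decompositions `x = u + v` -/
def Dec (S T : E → F) (x : E) : Set F := {z | ∃ u v, |u| ⊓ |v| = 0 ∧ x = u + v ∧ z = S u + T v}

theorem result : ∃ (X : Type) (_ : TopologicalSpace X) (S T R : (ℕ → ℝ) → C(X, ℝ)) (x : ℕ → ℝ),
    OA S ∧ OA T ∧ IsJoin S T R ∧
    ∀ (G : Type) [AddCommGroup G] [ConditionallyCompleteLattice G] (J : C(X, ℝ) →+ G),
      (∀ a b, J a ≤ J b ↔ a ≤ b) → sSup (Dec (J ∘ S) (J ∘ T) x) ≠ J (R x) := by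
  obtain ⟨S, R, h1, h2, h3, h4, ⟨w, h5, h6⟩, h7⟩ := core'
  refine ⟨Tr, inferInstance, S, 0, R, 1, h1, fun _ _ _ => by simp, ⟨h2, h3, h4, fun P a b c =>
    h7 P (fun x y h => (a x y h).ge) fun x y h => ?_⟩, fun G _ _ J hJ e => h6 ((hJ _ _).1 ?_)⟩
  · rw [a x y h]; exact le_add_of_le_of_nonneg (b x) (c y)
  · rw [← e]
    refine csSup_le ⟨_, 1, 0, by simp, by simp, rfl⟩ ?_
    rintro _ ⟨u, v, -, -, rfl⟩
    simpa using (hJ _ _).2 (h5 u)

end Pool.Agent.Results.MP_78978c_an.Gap
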